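import Pool.Agent.W642.RS.Stms

/-!
# RS-POLY: a random polygon with vertices on a circle has many self-crossings
-/

set_option autoImplicit false

namespace Pool.Agent.W642.RS

open Finset Pool.Agent.H832R2.JR

namespace PolyAux

variable {n : ℕ}

/-- four different numbers: exactly one of the three pairings alternates -/
theorem one_of_three {a b c d : ℕ} (hab : a ≠ b) (hac : a ≠ c) (had : a ≠ d) (hbc : b ≠ c)
    (hbd : b ≠ d) (hcd : c ≠ d) :
    (¬ (Btw a b c ↔ Btw a b d) ∧ (Btw a c d ↔ Btw a c b) ∧ (Btw a d b ↔ Btw a d c)) ∨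
    ((Btw a b c ↔ Btw a b d) ∧ ¬ (Btw a c d ↔ Btw a c b) ∧ (Btw a d b ↔ Btw a d c)) ∨
    ((Btw a b c ↔ Btw a b d) ∧ (Btw a c d ↔ Btw a c b) ∧ ¬ (Btw a d b ↔ Btw a d c)) := by
  unfold Pool.Agent.H832R2.JR.Btw
  have aux : ∀ x y : ℕ, x < y → (x < y ↔ True) ∧ (y < x ↔ False) := fun x y h =>
    ⟨⟨fun _ => trivial, fun _ => h⟩, ⟨fun h' => absurd h' (not_lt.2 h.le), False.elim⟩⟩
  rcases lt_or_gt_of_ne hab with h1 | h1 <;> rcases lt_or_gt_of_ne hac with h2 | h2 <;>
    rcases lt_or_gt_of_ne had with h3 | h3 <;> rcases lt_or_gt_of_ne hbc with h4 | h4 <;>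
    rcases lt_or_gt_of_ne hbd with h5 | h5 <;> rcases lt_or_gt_of_ne hcd with h6 | h6 <;>
    first
    | (exfalso; omega)
    | (simp only [(aux _ _ h1).1, (aux _ _ h1).2, (aux _ _ h2).1, (aux _ _ h2).2,
        (aux _ _ h3).1, (aux _ _ h3).2, (aux _ _ h4).1, (aux _ _ h4).2, (aux _ _ h5).1,
        (aux _ _ h5).2, (aux _ _ h6).1, (aux _ _ h6).2]; simp)

/-- the pairs of edges without common vertex -/
def EE (n : ℕ) : Finset (Fin n × Fin n) :=
  univ.filter fun e => e.1 < e.2 ∧ finRotate n e.1 ≠ e.2 ∧ finRotate n e.2 ≠ e.1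

theorem mem_EE {e : Fin n × Fin n} :
    e ∈ EE n ↔ e.1 < e.2 ∧ finRotate n e.1 ≠ e.2 ∧ finRotate n e.2 ≠ e.1 := by
  unfold EE
  simp

theorem rot_ne (hn : 2 ≤ n) (i : Fin n) : finRotate n i ≠ i := by
  obtain ⟨m, rfl⟩ : ∃ m, n = m + 1 := ⟨n - 1, by omega⟩
  intro h
  have h1 := congrArg Fin.val h
  rw [coe_finRotate] at h1
  split_ifs at h1 with h2
  · rw [h2] at h1
    simp at h1
    omega
  · omega

/-- the 3-cycle -/
def tau (e : Fin n × Fin n) : Equiv.Perm (Fin n) :=
  Equiv.swap (finRotate n e.1) e.2 * Equiv.swap e.2 (finRotate n e.2)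

section facts

variable {e : Fin n × Fin n}

theorem tau_a (hn : 2 ≤ n) (he : e ∈ EE n) : tau e e.1 = e.1 := by
  obtain ⟨h1, h2, h3⟩ := mem_EE.1 he
  unfold tau
  rw [Equiv.Perm.mul_apply, Equiv.swap_apply_of_ne_of_ne h1.ne h3.symm,
    Equiv.swap_apply_of_ne_of_ne (rot_ne hn e.1).symm h1.ne]

theorem tau_b (he : e ∈ EE n) : tau e (finRotate n e.1) = e.2 := by
  obtain ⟨h1, h2, h3⟩ := mem_EE.1 he
  unfold tau
  rw [Equiv.Perm.mul_apply, Equiv.swap_apply_of_ne_of_ne h2
    (fun h => h1.ne ((finRotate n).injective h)), Equiv.swap_apply_left]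

theorem tau_c (hn : 2 ≤ n) (he : e ∈ EE n) : tau e e.2 = finRotate n e.2 := by
  obtain ⟨h1, h2, h3⟩ := mem_EE.1 he
  unfold tau
  rw [Equiv.Perm.mul_apply, Equiv.swap_apply_left, Equiv.swap_apply_of_ne_of_ne
    (fun h => h1.ne ((finRotate n).injective h).symm) (rot_ne hn e.2)]

theorem tau_d : tau e (finRotate n e.2) = finRotate n e.1 := by
  unfold tau
  rw [Equiv.Perm.mul_apply, Equiv.swap_apply_right, Equiv.swap_apply_right]

theorem tau_other {x : Fin n} (h1 : x ≠ finRotate n e.1) (h2 : x ≠ e.2)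
    (h3 : x ≠ finRotate n e.2) : tau e x = x := by
  unfold tau
  rw [Equiv.Perm.mul_apply, Equiv.swap_apply_of_ne_of_ne h2 h3,
    Equiv.swap_apply_of_ne_of_ne h1 h2]

end facts

open Classical in
/-- indicator of a crossing -/
noncomputable def XX (e : Fin n × Fin n) (r : Equiv.Perm (Fin n)) : ℤ :=
  if EdgesCross r e.1 e.2 then 1 else 0

/-- centred indicator -/
noncomputable def YY (e : Fin n × Fin n) (r : Equiv.Perm (Fin n)) : ℤ := 3 * XX e r - 1

theorem cross_iff {e : Fin n × Fin n} (he : e ∈ EE n) (r : Equiv.Perm (Fin n)) :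
    EdgesCross r e.1 e.2 ↔ ¬ (Btw (r e.1) (r (finRotate n e.1)) (r e.2) ↔
      Btw (r e.1) (r (finRotate n e.1)) (r (finRotate n e.2))) := by
  obtain ⟨h1, h2, h3⟩ := mem_EE.1 he
  unfold EdgesCross
  constructor
  · exact fun h => h.2.2.2
  · exact fun h => ⟨h1.ne, h2, h3, h⟩

theorem YY_sum (hn : 2 ≤ n) {e : Fin n × Fin n} (he : e ∈ EE n) (r : Equiv.Perm (Fin n)) :
    YY e r + YY e (r * tau e) + YY e (r * (tau e * tau e)) = 0 := by
  obtain ⟨h1, h2, h3⟩ := mem_EE.1 he
  have hab : (r e.1 : ℕ) ≠ r (finRotate n e.1) := fun h =>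
    rot_ne hn e.1 (r.injective (Fin.ext h)).symm
  have hac : (r e.1 : ℕ) ≠ r e.2 := fun h => h1.ne (r.injective (Fin.ext h))
  have had : (r e.1 : ℕ) ≠ r (finRotate n e.2) := fun h => h3 (r.injective (Fin.ext h)).symm
  have hbc : (r (finRotate n e.1) : ℕ) ≠ r e.2 := fun h => h2 (r.injective (Fin.ext h))
  have hbd : (r (finRotate n e.1) : ℕ) ≠ r (finRotate n e.2) := fun h =>
    h1.ne ((finRotate n).injective (r.injective (Fin.ext h)))
  have hcd : (r e.2 : ℕ) ≠ r (finRotate n e.2) := fun h =>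
    rot_ne hn e.2 (r.injective (Fin.ext h)).symm
  have key := one_of_three hab hac had hbc hbd hcd
  have e1 := cross_iff he r
  have e2 := cross_iff he (r * tau e)
  have e3 := cross_iff he (r * (tau e * tau e))
  simp only [Equiv.Perm.mul_apply, tau_a hn he, tau_b he, tau_c hn he, tau_d] at e2 e3
  unfold YY XX
  rcases key with ⟨k1, k2, k3⟩ | ⟨k1, k2, k3⟩ | ⟨k1, k2, k3⟩
  · rw [if_pos (e1.2 k1), if_neg (fun h => e2.1 h k2), if_neg (fun h => e3.1 h k3)]
    norm_num
  · rw [if_neg (fun h => e1.1 h k1), if_pos (e2.2 k2), if_neg (fun h => e3.1 h k3)]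
    norm_num
  · rw [if_neg (fun h => e1.1 h k1), if_neg (fun h => e2.1 h k2), if_pos (e3.2 k3)]
    norm_num

/-- neighbours -/
def TT (e : Fin n × Fin n) : Finset (Fin n) :=
  {e.1, finRotate n e.1, e.2, finRotate n e.2, (finRotate n).symm e.2}

theorem TT_card (e : Fin n × Fin n) : (TT e).card ≤ 5 := Finset.card_le_five

theorem YY_indep {e e' : Fin n × Fin n} (h1 : e'.1 ∉ TT e) (h2 : e'.2 ∉ TT e)
    (r : Equiv.Perm (Fin n)) : YY e' (r * tau e) = YY e' r := by
  classical
  unfold TT at h1 h2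
  simp only [mem_insert, mem_singleton, not_or] at h1 h2
  have hrot : ∀ x : Fin n, x ≠ e.1 → x ≠ e.2 → x ≠ (finRotate n).symm e.2 →
      tau e (finRotate n x) = finRotate n x := by
    intro x hx1 hx2 hx3
    refine tau_other (fun h => hx1 ((finRotate n).injective h)) (fun h => hx3 ?_)
      (fun h => hx2 ((finRotate n).injective h))
    rw [← h, Equiv.symm_apply_apply]
  have e1 : tau e e'.1 = e'.1 := tau_other h1.2.1 h1.2.2.1 h1.2.2.2.1
  have e2 : tau e e'.2 = e'.2 := tau_other h2.2.1 h2.2.2.1 h2.2.2.2.1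
  have e3 := hrot e'.1 h1.1 h1.2.2.1 h1.2.2.2.2
  have e4 := hrot e'.2 h2.1 h2.2.2.1 h2.2.2.2.2
  have key : EdgesCross (r * tau e) e'.1 e'.2 ↔ EdgesCross r e'.1 e'.2 := by
    unfold EdgesCross
    rw [Equiv.Perm.mul_apply, Equiv.Perm.mul_apply, Equiv.Perm.mul_apply, Equiv.Perm.mul_apply,
      e1, e2, e3, e4]
  unfold YY XX
  simp only [key]

theorem corr_zero (hn : 2 ≤ n) {e e' : Fin n × Fin n} (he : e ∈ EE n) (h1 : e'.1 ∉ TT e)
    (h2 : e'.2 ∉ TT e) : ∑ r, YY e r * YY e' r = 0 := by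
  have a1 : ∑ r, YY e r * YY e' r = ∑ r, YY e (r * tau e) * YY e' r := by
    rw [← Equiv.sum_comp (Equiv.mulRight (tau e))]
    refine sum_congr rfl fun r _ => ?_
    simp only [Equiv.coe_mulRight]
    rw [YY_indep h1 h2]
  have a2 : ∑ r, YY e r * YY e' r = ∑ r, YY e (r * (tau e * tau e)) * YY e' r := by
    rw [← Equiv.sum_comp (Equiv.mulRight (tau e * tau e))]
    refine sum_congr rfl fun r _ => ?_
    simp only [Equiv.coe_mulRight]
    have : YY e' (r * (tau e * tau e)) = YY e' r := by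
      rw [← mul_assoc, YY_indep h1 h2, YY_indep h1 h2]
    rw [this]
  have a3 : ∑ r, YY e r * YY e' r + ∑ r, YY e (r * tau e) * YY e' r +
      ∑ r, YY e (r * (tau e * tau e)) * YY e' r = 0 := by
    rw [← sum_add_distrib, ← sum_add_distrib]
    refine sum_eq_zero fun r _ => ?_
    rw [← add_mul, ← add_mul, YY_sum hn he, zero_mul]
  linarith

theorem YY_abs (e : Fin n × Fin n) (r : Equiv.Perm (Fin n)) : |YY e r| ≤ 2 := by
  unfold YY XX
  split_ifs <;> norm_num

theorem corr_le (e e' : Fin n × Fin n) : ∑ r, YY e r * YY e' r ≤ 4 * n.factorial := by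
  calc ∑ r, YY e r * YY e' r ≤ ∑ _r : Equiv.Perm (Fin n), (4 : ℤ) := by
        refine sum_le_sum fun r _ => ?_
        have h1 := YY_abs e r
        have h2 := YY_abs e' r
        calc YY e r * YY e' r ≤ |YY e r * YY e' r| := le_abs_self _
          _ = |YY e r| * |YY e' r| := abs_mul _ _
          _ ≤ 2 * 2 := mul_le_mul h1 h2 (abs_nonneg _) (by norm_num)
          _ = 4 := by norm_num
    _ = _ := by
        rw [sum_const, card_univ, Fintype.card_perm, Fintype.card_fin, nsmul_eq_mul, mul_comm]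

theorem var_le (hn : 2 ≤ n) :
    ∑ r, (∑ e ∈ EE n, YY e r) ^ 2 ≤ 40 * (n : ℤ) ^ 3 * n.factorial := by
  classical
  have h1 : ∑ r, (∑ e ∈ EE n, YY e r) ^ 2 =
      ∑ e ∈ EE n, ∑ e' ∈ EE n, ∑ r, YY e r * YY e' r := by
    calc ∑ r, (∑ e ∈ EE n, YY e r) ^ 2 = ∑ r, ∑ e ∈ EE n, ∑ e' ∈ EE n, YY e r * YY e' r := by
          refine sum_congr rfl fun r _ => ?_
          rw [sq, sum_mul_sum]
      _ = _ := by
          rw [sum_comm]
          refine sum_congr rfl fun e _ => ?_
          rw [sum_comm]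
  rw [h1]
  have h2 : ∀ e ∈ EE n, ∑ e' ∈ EE n, ∑ r, YY e r * YY e' r ≤ 10 * n * (4 * n.factorial) := by
    intro e he
    set B : Finset (Fin n × Fin n) := (TT e ×ˢ univ) ∪ (univ ×ˢ TT e) with hB
    have hBc : B.card ≤ 10 * n := by
      refine (card_union_le _ _).trans ?_
      rw [card_product, card_product, card_univ, Fintype.card_fin]
      have := TT_card e
      nlinarith
    calc ∑ e' ∈ EE n, ∑ r, YY e r * YY e' r
        ≤ ∑ e' ∈ EE n, if e' ∈ B then (4 * (n.factorial : ℤ)) else 0 := by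
          refine sum_le_sum fun e' _ => ?_
          by_cases hb : e' ∈ B
          · rw [if_pos hb]
            exact corr_le e e'
          · rw [if_neg hb]
            rw [hB, mem_union, mem_product, mem_product, not_or] at hb
            refine (corr_zero hn he (fun h => hb.1 ⟨h, mem_univ _⟩)
              (fun h => hb.2 ⟨mem_univ _, h⟩)).le
      _ ≤ ∑ e' ∈ (univ : Finset (Fin n × Fin n)),
            if e' ∈ B then (4 * (n.factorial : ℤ)) else 0 := by
          refine sum_le_sum_of_subset_of_nonneg (subset_univ _) fun e' _ _ => ?_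
          split_ifs
          · positivity
          · exact le_rfl
      _ = B.card * (4 * (n.factorial : ℤ)) := by
          rw [← sum_filter, sum_const, nsmul_eq_mul, filter_mem_eq_inter, univ_inter]
      _ ≤ 10 * n * (4 * (n.factorial : ℤ)) := by
          refine mul_le_mul_of_nonneg_right ?_ (by positivity)
          exact_mod_cast hBc
  calc ∑ e ∈ EE n, ∑ e' ∈ EE n, ∑ r, YY e r * YY e' r
      ≤ ∑ _e ∈ EE n, 10 * (n : ℤ) * (4 * n.factorial) := sum_le_sum h2
    _ = (EE n).card * (10 * (n : ℤ) * (4 * n.factorial)) := by rw [sum_const, nsmul_eq_mul]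
    _ ≤ (n : ℤ) ^ 2 * (10 * (n : ℤ) * (4 * n.factorial)) := by
        refine mul_le_mul_of_nonneg_right ?_ (by positivity)
        have h3 : (EE n).card ≤ n ^ 2 := by
          refine (card_le_univ _).trans ?_
          rw [Fintype.card_prod, Fintype.card_fin, sq]
        exact_mod_cast h3
    _ = _ := by ring

theorem card_lt' (n : ℕ) :
    n * n ≤ 2 * (univ.filter fun e : Fin n × Fin n => e.1 < e.2).card + n := by
  have h1 : (univ.filter fun e : Fin n × Fin n => e.2 < e.1).card =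
      (univ.filter fun e : Fin n × Fin n => e.1 < e.2).card := by
    refine card_bij (fun e _ => (e.2, e.1)) ?_ ?_ ?_
    · intro e he
      simpa using he
    · intro a _ b _ h
      rw [Prod.mk.injEq] at h
      exact Prod.ext h.2 h.1
    · intro b hb
      exact ⟨(b.2, b.1), by simpa using hb, rfl⟩
  have h2 : (univ.filter fun e : Fin n × Fin n => e.1 = e.2).card ≤ n := by
    have : (univ.filter fun e : Fin n × Fin n => e.1 = e.2) ⊆
        (univ : Finset (Fin n)).image fun i => (i, i) := by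
      intro e he
      rw [mem_filter] at he
      exact mem_image.2 ⟨e.1, mem_univ _, Prod.ext rfl he.2⟩
    refine (card_le_card this).trans (card_image_le.trans ?_)
    simp
  have h3 : (univ : Finset (Fin n × Fin n)) ⊆
      ((univ.filter fun e : Fin n × Fin n => e.1 < e.2) ∪
        (univ.filter fun e : Fin n × Fin n => e.2 < e.1)) ∪
        (univ.filter fun e : Fin n × Fin n => e.1 = e.2) := by
    intro e _
    simp only [mem_union, mem_filter, mem_univ, true_and]
    rcases lt_trichotomy e.1 e.2 with h | h | h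
    · exact Or.inl (Or.inl h)
    · exact Or.inr h
    · exact Or.inl (Or.inr h)
  have h4 := card_le_card h3
  have h5 := card_union_le ((univ.filter fun e : Fin n × Fin n => e.1 < e.2) ∪
        (univ.filter fun e : Fin n × Fin n => e.2 < e.1))
        (univ.filter fun e : Fin n × Fin n => e.1 = e.2)
  have h6 := card_union_le (univ.filter fun e : Fin n × Fin n => e.1 < e.2)
        (univ.filter fun e : Fin n × Fin n => e.2 < e.1)
  rw [card_univ, Fintype.card_prod, Fintype.card_fin] at h4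
  omega

theorem EE_card (n : ℕ) : n * n ≤ 2 * (EE n).card + 5 * n := by
  have h1 := card_lt' n
  have h2 : (univ.filter fun e : Fin n × Fin n => e.1 < e.2) ⊆
      (EE n ∪ ((univ : Finset (Fin n)).image fun i => (i, finRotate n i))) ∪
        ((univ : Finset (Fin n)).image fun i => (finRotate n i, i)) := by
    intro e he
    rw [mem_filter] at he
    rw [mem_union, mem_union]
    by_cases ha : finRotate n e.1 = e.2
    · exact Or.inl (Or.inr (mem_image.2 ⟨e.1, mem_univ _, Prod.ext rfl ha⟩))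
    by_cases hb : finRotate n e.2 = e.1
    · exact Or.inr (mem_image.2 ⟨e.2, mem_univ _, Prod.ext hb rfl⟩)
    exact Or.inl (Or.inl (mem_EE.2 ⟨he.2, ha, hb⟩))
  have h3 := card_le_card h2
  have h4 := card_union_le (EE n ∪ ((univ : Finset (Fin n)).image fun i => (i, finRotate n i)))
    ((univ : Finset (Fin n)).image fun i => (finRotate n i, i))
  have h5 := card_union_le (EE n) ((univ : Finset (Fin n)).image fun i => (i, finRotate n i))
  have h6 : ((univ : Finset (Fin n)).image fun i => (i, finRotate n i)).card ≤ n := by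
    refine card_image_le.trans ?_
    simp
  have h7 : ((univ : Finset (Fin n)).image fun i => (finRotate n i, i)).card ≤ n := by
    refine card_image_le.trans ?_
    simp
  omega

end PolyAux

open PolyAux in
theorem poly : S_poly := by
  classical
  refine ⟨2560, fun n => ?_⟩
  set B : Finset (Equiv.Perm (Fin n)) := univ.filter fun r : Equiv.Perm (Fin n) =>
    24 * (univ.filter fun ij : Fin n × Fin n => ij.1 < ij.2 ∧ EdgesCross r ij.1 ij.2).card <
      n ^ 2 with hB
  have hBn : B.card ≤ n.factorial := by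
    refine (card_le_univ _).trans ?_
    rw [Fintype.card_perm, Fintype.card_fin]
  by_cases hn : n < 10
  · calc B.card * n ≤ n.factorial * 10 := Nat.mul_le_mul hBn hn.le
      _ ≤ 2560 * n.factorial := by omega
  have hn10 : 10 ≤ n := not_lt.1 hn
  have hn2 : 2 ≤ n := by omega
  -- the sum of the centred indicators
  have hsum : ∀ r : Equiv.Perm (Fin n), ∑ e ∈ EE n, YY e r =
      3 * ((univ.filter fun ij : Fin n × Fin n =>
        ij.1 < ij.2 ∧ EdgesCross r ij.1 ij.2).card : ℤ) - (EE n).card := by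
    intro r
    unfold YY
    rw [sum_sub_distrib, ← mul_sum]
    congr 1
    · congr 1
      unfold XX
      rw [← sum_filter, sum_const, nsmul_eq_mul, mul_one]
      congr 2
      ext e
      rw [mem_filter, mem_filter, mem_EE]
      constructor
      · rintro ⟨⟨h1, -, -⟩, h2⟩
        exact ⟨mem_univ _, h1, h2⟩
      · rintro ⟨-, h1, h2⟩
        exact ⟨⟨h1, h2.2.1, h2.2.2.1⟩, h2⟩
    · simp
  have hE : (n : ℤ) * n ≤ 2 * (EE n).card + 5 * n := by exact_mod_cast EE_card n
  have hn10' : (10 : ℤ) ≤ n := by exact_mod_cast hn10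
  have hbad : ∀ r ∈ B, ((n : ℤ) ^ 2) ^ 2 ≤ 64 * (∑ e ∈ EE n, YY e r) ^ 2 := by
    intro r hr
    rw [hB, mem_filter] at hr
    have h1 : (24 : ℤ) * ((univ.filter fun ij : Fin n × Fin n =>
        ij.1 < ij.2 ∧ EdgesCross r ij.1 ij.2).card : ℤ) < (n : ℤ) ^ 2 := by exact_mod_cast hr.2
    have h2 := hsum r
    set S := ∑ e ∈ EE n, YY e r with hS
    have h3 : (n : ℤ) ^ 2 ≤ 8 * (-S) := by nlinarith
    have h4 : 0 ≤ (n : ℤ) ^ 2 := by positivity
    have h5 : ((n : ℤ) ^ 2) ^ 2 ≤ (8 * (-S)) ^ 2 := pow_le_pow_left₀ h4 h3 2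
    calc ((n : ℤ) ^ 2) ^ 2 ≤ (8 * (-S)) ^ 2 := h5
      _ = 64 * S ^ 2 := by ring
  have hfin : (B.card : ℤ) * ((n : ℤ) ^ 2) ^ 2 ≤ 64 * (40 * (n : ℤ) ^ 3 * n.factorial) := by
    calc (B.card : ℤ) * ((n : ℤ) ^ 2) ^ 2 = ∑ _r ∈ B, ((n : ℤ) ^ 2) ^ 2 := by
          rw [sum_const, nsmul_eq_mul]
      _ ≤ ∑ r ∈ B, 64 * (∑ e ∈ EE n, YY e r) ^ 2 := sum_le_sum hbad
      _ ≤ ∑ r, 64 * (∑ e ∈ EE n, YY e r) ^ 2 :=
          sum_le_sum_of_subset_of_nonneg (subset_univ _) fun r _ _ => by positivity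
      _ = 64 * ∑ r, (∑ e ∈ EE n, YY e r) ^ 2 := by rw [mul_sum]
      _ ≤ _ := mul_le_mul_of_nonneg_left (var_le hn2) (by norm_num)
  have hn3 : (0 : ℤ) < (n : ℤ) ^ 3 := by positivity
  have h7 : ((B.card : ℤ) * n) * (n : ℤ) ^ 3 ≤ (2560 * (n.factorial : ℤ)) * (n : ℤ) ^ 3 := by
    calc ((B.card : ℤ) * n) * (n : ℤ) ^ 3 = (B.card : ℤ) * ((n : ℤ) ^ 2) ^ 2 := by ring
      _ ≤ 64 * (40 * (n : ℤ) ^ 3 * n.factorial) := hfin
      _ = _ := by ring
  have h8 := le_of_mul_le_mul_right h7 hn3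
  exact_mod_cast h8

end Pool.Agent.W642.RS
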